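import Pool.Agent.Helper2.BI.St

set_option autoImplicit false

namespace Pool.Agent.Helper13.BI

open Finset
open Pool.Agent.Helper2.BI
open Pool.Agent.Helper15.AB (ee StGA)

lemma ee_sub_int (x : ℝ) (k : ℤ) : ee (x - k) = ee x := by
  unfold ee
  have h : (2 * (Real.pi : ℂ) * ((x - k : ℝ) : ℂ) * Complex.I) =
      2 * (Real.pi : ℂ) * (x : ℂ) * Complex.I - (k : ℂ) * (2 * (Real.pi : ℂ) * Complex.I) := by
    push_cast
    ring
  rw [h, Complex.exp_sub, Complex.exp_int_mul_two_pi_mul_I, div_one]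

lemma ES_zero (B : Finset ℕ) : ES B 0 = (B.card : ℂ) := by
  unfold ES ee
  simp

lemma ES_fract (B : Finset ℕ) (x : ℝ) : ES B (Int.fract x) = ES B x := by
  unfold ES
  refine Finset.sum_congr rfl fun n _ => ?_
  have h : (n : ℝ) * Int.fract x = n * x - ((n * ⌊x⌋ : ℤ) : ℝ) := by
    rw [Int.fract]
    push_cast
    ring
  rw [h, ee_sub_int]

theorem hLS : LS := by
  intro h1 h2 h3 hGA
  obtain ⟨C, hC, hGA⟩ := hGA
  refine ⟨C, hC, ?_⟩
  intro N M k H Q B S hB hQ hS hOm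
  have hQ1 : (1 : ℝ) ≤ Q := by exact_mod_cast hQ
  have hQ0 : (0 : ℝ) < Q := by linarith
  have hQk : (1 : ℝ) ≤ ((Q : ℝ) ^ k) ^ 2 := one_le_pow₀ (one_le_pow₀ hQ1)
  have hQk0 : (0 : ℝ) < ((Q : ℝ) ^ k) ^ 2 := by linarith
  have hw : 0 ≤ (H : ℝ) / Q := by positivity
  have hstep : ∀ q ∈ S, ∀ α : ℝ, (H : ℝ) / Q * ‖ES B α‖ ^ 2 ≤
      ∑ c ∈ Ico 1 q, ‖ES B (α + c / q)‖ ^ 2 := by
    intro q hq α
    obtain ⟨hqp, hqQ, hHq⟩ := hS q hq
    obtain ⟨Om, hO1, hO2, hO3⟩ := hOm q hq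
    refine le_trans ?_ (h1 B Om q H hqp hO1 hO2 hHq hO3 α)
    have hq0 : (0 : ℝ) < q := by exact_mod_cast hqp.pos
    have hqQ' : (q : ℝ) ≤ Q := by exact_mod_cast hqQ
    exact mul_le_mul_of_nonneg_right (div_le_div_of_nonneg_left (Nat.cast_nonneg _) hq0 hqQ')
      (by positivity)
  have hA := h2 B S ((H : ℝ) / Q) hw (fun q hq => (hS q hq).1) hstep k 0
  rw [ES_zero, Complex.norm_natCast] at hA
  have hsep := h3 S k Q (fun q hq => ⟨(hS q hq).1, (hS q hq).2.1⟩)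
  have hinj : Set.InjOn (fun b : ℕ →₀ ℕ => Int.fract (fr b)) (Ix S k : Set (ℕ →₀ ℕ)) := by
    intro b hb b' hb' heq
    by_contra hne
    have h := hsep b hb b' hb' hne (⌊fr b⌋ - ⌊fr b'⌋)
    have h0 : fr b - fr b' - ((⌊fr b⌋ - ⌊fr b'⌋ : ℤ) : ℝ) = 0 := by
      have : Int.fract (fr b) = Int.fract (fr b') := heq
      rw [Int.fract, Int.fract] at this
      push_cast
      linarith
    rw [h0, abs_zero, mul_zero] at h
    linarith
  have hB2 := hGA ((Ix S k).image fun b => Int.fract (fr b)) (1 / ((Q : ℝ) ^ k) ^ 2) N M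
    (fun n => if n ∈ B then 1 else 0) (by positivity) (by rw [div_le_one hQk0]; exact hQk)
    (by
      intro α hα
      rw [Finset.mem_image] at hα
      obtain ⟨b, _, rfl⟩ := hα
      exact ⟨Int.fract_nonneg _, Int.fract_lt_one _⟩)
    (by
      intro α hα β hβ hne m
      rw [Finset.mem_image] at hα hβ
      obtain ⟨b, hb, rfl⟩ := hα
      obtain ⟨b', hb', rfl⟩ := hβ
      have hbb : b ≠ b' := fun h => hne (by rw [h])
      have h := hsep b hb b' hb' hbb (⌊fr b⌋ - ⌊fr b'⌋ + m)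
      have h0 : fr b - fr b' - ((⌊fr b⌋ - ⌊fr b'⌋ + m : ℤ) : ℝ) =
          Int.fract (fr b) - Int.fract (fr b') - m := by
        rw [Int.fract, Int.fract]
        push_cast
        ring
      rw [h0] at h
      rw [div_le_iff₀ hQk0]
      linarith)
  rw [Finset.sum_image hinj] at hB2
  have hterm : ∀ b ∈ Ix S k, ‖∑ n ∈ Ioc M (M + N), (if n ∈ B then (1 : ℂ) else 0) *
      ee (n * Int.fract (fr b))‖ ^ 2 = ‖ES B (0 + fr b)‖ ^ 2 := by
    intro b _
    have h : ∑ n ∈ Ioc M (M + N), (if n ∈ B then (1 : ℂ) else 0) * ee (n * Int.fract (fr b)) =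
        ES B (Int.fract (fr b)) := by
      unfold ES
      rw [← Finset.sum_subset hB]
      · refine Finset.sum_congr rfl fun n hn => ?_
        rw [if_pos hn, one_mul]
      · intro n _ hn
        rw [if_neg hn, zero_mul]
    rw [h, ES_fract, zero_add]
  rw [Finset.sum_congr rfl hterm] at hB2
  have hnorm : ∑ n ∈ Ioc M (M + N), ‖(if n ∈ B then (1 : ℂ) else 0)‖ ^ 2 = (B.card : ℝ) := by
    rw [← Finset.sum_subset hB]
    · have : ∀ n ∈ B, ‖(if n ∈ B then (1 : ℂ) else 0)‖ ^ 2 = (1 : ℝ) := by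
        intro n hn
        rw [if_pos hn]
        simp
      rw [Finset.sum_congr rfl this]
      simp
    · intro n _ hn
      rw [if_neg hn]
      simp
  rw [hnorm, one_div_one_div] at hB2
  have hAB := hA.trans hB2
  rcases Finset.eq_empty_or_nonempty B with hBe | hBne
  · rw [hBe, Finset.card_empty, Nat.cast_zero, mul_zero]
    positivity
  · have hBc : (0 : ℝ) < B.card := by exact_mod_cast hBne.card_pos
    refine le_of_mul_le_mul_right ?_ hBc
    calc (S.card.choose k : ℝ) * ((H : ℝ) / Q) ^ k * B.card * B.card =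
        (S.card.choose k : ℝ) * ((H : ℝ) / Q) ^ k * (B.card : ℝ) ^ 2 := by ring
      _ ≤ C * (N + ((Q : ℝ) ^ k) ^ 2) * B.card := hAB

end Pool.Agent.Helper13.BI
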